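import Pool.Agent.V11226.ET.Cons

/-!
# MP_12a1af_nt, Q1 and Q2: sets with bounded representation function avoid all automatic sets

`rep A n` is the number `r_A(n)` of ordered pairs of elements of `A` with sum `n`.

1. Let `S` be any automatic set (a set of natural numbers recognised by a finite automaton from the
   digits in a base `b`), and let `r_A(n) ≤ K` for `n ≤ 2 N`. Then `A` contains at most
   `C K (N ^ (-δ) |S ∩ [0, N]| + N ^ ε)` of the elements of `S` up to `N`. Here `ε > 0` is arbitrary,
   and `δ > 0` and `C` depend only on `ε`, `b` and the number of states. The same holds, uniformly, for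
   the images `t + f(S ∩ [0, N])` under all functions `f` which are additive on the digits in base `b`
   (for instance `f(x) = c x`, or for `b = 2` and `S = ℕ` the map onto the subset sums of an arbitrary
   sequence of integers), with all shifts `t`.
2. Hence Q1 and Q2 have an affirmative answer, in the strong form `r_A(n) ≥ n ^ δ` for infinitely
   many `n`, for every set `A` of which, for arbitrarily large `N`, a fixed positive proportion of the elements up to `N` lies in an automatic set `S` with at most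
   `N ^ (1/2 + δ)` elements up to `N`. The elements of `A` in `S` can be chosen in any way, and nothing
   is assumed about the other elements of `A`.

Method. Divide the digits into blocks and fix the states of the automaton between the blocks. Then
`S ∩ [0, N]` is a disjoint union of sumsets `S_1 + … + S_m`. If `X ⊆ A` lies in `S_1 + … + S_m`, then the
unordered pairs of elements of `X` are mapped to the sequences of unordered pairs of elements of
`S_1, …, S_m` with at most `K` preimages for each of them, since all the preimages have the same sum.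
So every nontrivial `S_i` contributes a factor less than one to the density of `X`.
-/

set_option autoImplicit false

open Filter

namespace Pool.Agent.Results.MP_12a1af_nt.AutomaticHosts

/-- `r_A(n)`: the number of ordered pairs of elements of `A` with sum `n`. -/
noncomputable def rep (A : Set ℕ) (n : ℕ) : ℕ :=
  {p : ℕ × ℕ | p.1 ∈ A ∧ p.2 ∈ A ∧ p.1 + p.2 = n}.ncard

/-- `count S N`: the number of elements of `S` up to `N`. -/
noncomputable def count (S : Set ℕ) (N : ℕ) : ℕ := {x : ℕ | x ∈ S ∧ x ≤ N}.ncard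

/-- `S` is recognised by a deterministic automaton with `w` states which reads the digits in base `b`,
the least significant digit first. -/
def Automatic (b w : ℕ) (S : Set ℕ) : Prop :=
  ∃ (δ : Fin w → ℕ → Fin w) (q₀ : Fin w) (F : Set (Fin w)),
    ∀ x, x ∈ S ↔ (Nat.digits b x).foldl δ q₀ ∈ F

/-- `f` is additive on the digits in base `b`. -/
def DigitAdditive (b : ℕ) (f : ℕ → ℕ) : Prop :=
  ∀ k a r : ℕ, r < b ^ k → f (a * b ^ k + r) = f (a * b ^ k) + f r

/-- The number of elements `y ≤ Y` of `A` in the set `t + f(S ∩ [0, N])`. -/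
noncomputable def hits (A S : Set ℕ) (f : ℕ → ℕ) (t N Y : ℕ) : ℕ :=
  {y : ℕ | y ∈ A ∧ y ≤ Y ∧ ∃ x ∈ S, x ≤ N ∧ t + f x = y}.ncard

/-- (1) Power saving for sets with bounded representation function in (images of) automatic sets.
(2) Q1 and Q2, with `r_A(n) ≥ n ^ δ` for infinitely many `n`, for all sets of which a fixed positive
proportion of the elements lies in an automatic set with at most `N ^ (1/2 + δ)` elements up to `N`,
for arbitrarily large `N`. The last hypothesis is that of Q1 or that of Q2; `Nat.nth (fun a => a ∈ A) n` is the element `a_{n+1}` of `A`. -/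
theorem result (b w : ℕ) (hb : 2 ≤ b) :
    (∀ ε : ℝ, 0 < ε → ∃ δ : ℝ, 0 < δ ∧ ∃ C : ℝ, 0 < C ∧
      ∀ (K : ℕ) (A S : Set ℕ) (f : ℕ → ℕ) (t N Y : ℕ), (∀ n ≤ 2 * Y, rep A n ≤ K) →
        Automatic b w S → DigitAdditive b f → 1 ≤ N →
        (hits A S f t N Y : ℝ) ≤ C * K * ((N : ℝ) ^ (-δ) * count S N + (N : ℝ) ^ ε)) ∧
    (∃ δ : ℝ, 0 < δ ∧ ∀ (A S : Set ℕ) (κ : ℝ), Automatic b w S → 0 < κ →
      (∀ M : ℕ, ∃ N ≥ M, (count S N : ℝ) ≤ (N : ℝ) ^ (1 / 2 + δ : ℝ) ∧
        κ * count A N ≤ count (A ∩ S) N) →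
      ((∀ᶠ n in atTop, 1 ≤ rep A n) ∨
        (A.Infinite ∧ ∃ C : ℕ, ∀ n, Nat.nth (fun a => a ∈ A) n ≤ C * (n + 1) ^ 2)) →
      ∀ M : ℕ, ∃ n ≥ M, (n : ℝ) ^ δ ≤ rep A n) := by
  have hset : ∀ (A S : Set ℕ) (N : ℕ), count (A ∩ S) N =
      ({x | x ∈ A ∧ x ∈ S ∧ x ≤ N} : Set ℕ).ncard := by
    intro A S N
    unfold count
    congr 1
    ext x
    exact ⟨fun h => ⟨h.1.1, h.1.2, h.2⟩, fun h => ⟨⟨h.1, h.2.1⟩, h.2.2⟩⟩
  have hle : ∀ (A : Set ℕ) (n : ℕ), (Pool.Agent.V11226.ET.msets A 2 n).ncard ≤ rep A n :=
    Pool.Agent.V11226.ET.msets_two_le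
  constructor
  · intro ε hε
    obtain ⟨δ, hδ, C, hC, H⟩ := Pool.Agent.V11226.ET.power_saving b w hb ε hε
    refine ⟨δ, hδ, 2 * C, by positivity, ?_⟩
    intro K A S f t N Y hr hS hf hN
    have h1 := H 2 K A S f t N Y le_rfl (fun n hn => (hle A n).trans (hr n hn)) hS hf hN
    refine h1.trans (le_of_eq ?_)
    have h2 : ((2 : ℕ).factorial : ℝ) = 2 := by norm_num [Nat.factorial]
    rw [h2]
    unfold count
    ring
  · obtain ⟨δ₁, hδ₁, H1⟩ := Pool.Agent.V11226.ET.basis_power b w 2 hb le_rfl
    obtain ⟨δ₂, hδ₂, H2⟩ := Pool.Agent.V11226.ET.thin_power b w 2 hb le_rfl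
    refine ⟨min δ₁ δ₂, lt_min hδ₁ hδ₂, ?_⟩
    intro A S κ hS hκ hinf hor M
    have hfin : ∀ n : ℕ, M + 1 ≤ n → (n : ℝ) ^ min δ₁ δ₂ ≤ (n : ℝ) ^ δ₁ ∧
        (n : ℝ) ^ min δ₁ δ₂ ≤ (n : ℝ) ^ δ₂ := by
      intro n hn
      have h1 : (1 : ℝ) ≤ n := by exact_mod_cast (show 1 ≤ n by omega)
      exact ⟨Real.rpow_le_rpow_of_exponent_le h1 (min_le_left _ _),
        Real.rpow_le_rpow_of_exponent_le h1 (min_le_right _ _)⟩
    have hcast : ∀ n : ℕ, ((Pool.Agent.V11226.ET.msets A 2 n).ncard : ℝ) ≤ rep A n := fun n => by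
      exact_mod_cast hle A n
    rcases hor with hQ | ⟨hA, C, hC⟩
    · obtain ⟨n₀, hn₀⟩ := eventually_atTop.1 hQ
      obtain ⟨n, hnM, hn⟩ := H1 A S κ n₀
        (fun n hn => Pool.Agent.V11226.ET.nonempty_of_rep (hn₀ n hn)) hS hκ (by
          intro M
          obtain ⟨N, hN, h1, h2⟩ := hinf (max M 1)
          refine ⟨N, le_trans (le_max_left _ _) hN, ?_, ?_⟩
          · have hN1 : (1 : ℝ) ≤ N := by exact_mod_cast le_trans (le_max_right _ _) hN
            refine h1.trans (Real.rpow_le_rpow_of_exponent_le hN1 ?_)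
            push_cast
            linarith [min_le_left δ₁ δ₂]
          · rw [← hset]
            exact h2) (M + 1)
      exact ⟨n, by omega, (hfin n hnM).1.trans (hn.trans (hcast n))⟩
    · have hC1 : ∀ n, Nat.nth (fun a => a ∈ A) n ≤ (C + 1) * (n + 1) ^ 2 := fun n =>
        (hC n).trans (Nat.mul_le_mul_right _ (by omega))
      have hs : 0 < Real.sqrt ((C + 1 : ℕ) : ℝ) := Real.sqrt_pos.2 (by positivity)
      obtain ⟨n, hnM, hn⟩ := H2 A S (κ / (2 * Real.sqrt ((C + 1 : ℕ) : ℝ))) hS (by positivity) (by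
          intro M
          obtain ⟨N, hN, h1, h2⟩ := hinf (max (max M 1) (4 * (C + 1)))
          have hN1 : 1 ≤ N := le_trans (le_trans (le_max_right _ _) (le_max_left _ _)) hN
          have hNC : 4 * (C + 1) ≤ N := le_trans (le_max_right _ _) hN
          refine ⟨N, le_trans (le_trans (le_max_left _ _) (le_max_left _ _)) hN, ?_, ?_⟩
          · have h3 := Pool.Agent.V11226.ET.count_of_nth hA (by omega) hC1 N hNC
            rw [← hset]
            have h4 : (N : ℝ) ^ (1 / (2 : ℕ) : ℝ) = Real.sqrt N := by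
              rw [Real.sqrt_eq_rpow]
              norm_num
            rw [h4]
            refine le_trans ?_ h2
            rw [div_mul_eq_mul_div, div_le_iff₀ (by positivity)]
            have h5 := mul_le_mul_of_nonneg_left h3 hκ.le
            refine h5.trans (le_of_eq ?_)
            unfold count
            ring
          · have hN1r : (1 : ℝ) ≤ N := by exact_mod_cast hN1
            refine h1.trans (Real.rpow_le_rpow_of_exponent_le hN1r ?_)
            push_cast
            linarith [min_le_right δ₁ δ₂]) (M + 1)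
      exact ⟨n, by omega, (hfin n hnM).2.trans (hn.trans (hcast n))⟩

end Pool.Agent.Results.MP_12a1af_nt.AutomaticHosts
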