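import Pool.Agent.V11226.ETN.Normal

/-!
# MP_12a1af_nt: the digits of the elements of sets with bounded representation function

Fix a base `b`, a length `l` and a tolerance `η > 0`. For a pattern `z = (z_0, z_1, …)` of blocks of
`l` digits call `a` typical (for `z`) if the proportion of the positions `i` at which the block of `l`
digits of `a` is `z_i` differs from `b ^ (-l)` by at most `η`.

1. Let `A` be any set of natural numbers with `r_A(n) ≤ K` for `n ≤ 2 N`. Then, for every pattern
   `z`, all but `(C K) ^ (1/2) N ^ (1/2 - δ/2)` of the elements of `A` up to `N` are typical; `δ > 0`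
   and `C` depend only on `b`, `l` and `η`.
2. Every set `A` which satisfies the hypothesis of Q1 (`r_A(n) ≥ 1` for all large `n`) or of Q2
   (`a_n ≤ C n ^ 2`) satisfies `r_A(n) ≥ n ^ δ` for infinitely many `n`, or all but a proportion
   `N ^ (-δ)` of its elements up to `N` are typical, for all large `N`, uniformly for all patterns.

With constant patterns `z` this says that the elements of a counterexample are, up to a power saving,
normal in every base (all blocks of digits have nearly the right frequencies); so Q1 and Q2 hold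
for all sets whose elements omit a digit (or a block of digits) in some base, or only have
unusual frequencies of digits. With general patterns it says that the digits of almost all elements of
a counterexample are uncorrelated with every given sequence.

Method. For a block `w` let `f_w ≥ 1` on the arc `[w / b ^ l, (w + 1) / b ^ l)` be a nonnegative
trigonometric polynomial with mean at most `b ^ (-l) + η / 2` (a sum of Fejér kernels). Along a
progression of positions `J` with a large difference the frequencies of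
`T(a) = ∏ (1 + ε (f_{z_J}(a / b ^ J) - mean))` are all distinct, so that the norm of the coefficients
in the exponent `4/3` is multiplicative, `(1 + O(ε ^ (4/3))) ^ k`; the fourth moment of
`∑_{a ∈ B} e(a r / L)` is at most `4 L K |B| ^ 2`, since it counts the solutions of
`a_1 + a_2 ≡ a_1' + a_2'`. If `z_J` occurs too often in the elements of `B` then
`∑_{a ∈ B} T(a) ≥ |B| exp(c ε k)`, and Hölder's inequality gives a power saving because
`ε ^ (4/3)` is smaller than `ε`.
-/

set_option autoImplicit false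

open Filter

namespace Pool.Agent.Results.MP_12a1af_nt.DigitsOfElements

/-- `r_A(n)`: the number of ordered pairs of elements of `A` with sum `n`. -/
noncomputable def rep (A : Set ℕ) (n : ℕ) : ℕ :=
  {p : ℕ × ℕ | p.1 ∈ A ∧ p.2 ∈ A ∧ p.1 + p.2 = n}.ncard

/-- `count S N`: the number of elements of `S` up to `N`. -/
noncomputable def count (S : Set ℕ) (N : ℕ) : ℕ := {x : ℕ | x ∈ S ∧ x ≤ N}.ncard

/-- The number of the positions `i`, less than the number of digits of `a` in base `b`, at which the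
block `⌊a / b ^ i⌋ mod b ^ l` of `l` digits of `a` is `z i`. -/
def agreements (b l : ℕ) (z : ℕ → ℕ) (a : ℕ) : ℕ :=
  ((Finset.range (Nat.digits b a).length).filter fun i => a / b ^ i % b ^ l = z i).card

/-- The proportion of the positions at which the block of `l` digits of `a` is `z i` differs from
`b ^ (-l)` by at most `η`. -/
def Typical (b l : ℕ) (z : ℕ → ℕ) (η : ℝ) (a : ℕ) : Prop :=
  |(agreements b l z a : ℝ) / (Nat.digits b a).length - 1 / (b : ℝ) ^ l| ≤ η

/-- (1) In a set with bounded representation function all but `(C K N ^ (1 - δ)) ^ (1/2)` elements up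
to `N` are typical for the pattern `z`. (2) A set which satisfies the hypothesis of Q1 or of Q2 has
`r_A(n) ≥ n ^ δ` for infinitely many `n`, or all but a proportion `N ^ (-δ)` of its elements up to `N`
are typical, uniformly for all patterns `z`. `Nat.nth (fun a => a ∈ A) n` is the element `a_{n+1}` of
`A`. -/
theorem result (b l : ℕ) (hb : 2 ≤ b) (η : ℝ) (hη : 0 < η) :
    (∃ δ : ℝ, 0 < δ ∧ ∃ C : ℝ, 0 < C ∧ ∀ (z : ℕ → ℕ) (A : Set ℕ) (K N : ℕ),
      (∀ i, z i < b ^ l) → 1 ≤ N → (∀ n ≤ 2 * N, rep A n ≤ K) →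
      (count {a | a ∈ A ∧ ¬ Typical b l z η a} N : ℝ) ^ 2 ≤ C * K * (N : ℝ) ^ (1 - δ)) ∧
    (∃ δ : ℝ, 0 < δ ∧ ∀ A : Set ℕ, ((∀ᶠ n in atTop, 1 ≤ rep A n) ∨
        (A.Infinite ∧ ∃ C : ℕ, ∀ n, Nat.nth (fun a => a ∈ A) n ≤ C * (n + 1) ^ 2)) →
      (∀ M : ℕ, ∃ n ≥ M, (n : ℝ) ^ δ ≤ rep A n) ∨
      ∃ N₀ : ℕ, ∀ N ≥ N₀, ∀ z : ℕ → ℕ, (∀ i, z i < b ^ l) →
        (count {a | a ∈ A ∧ ¬ Typical b l z η a} N : ℝ) ≤ (N : ℝ) ^ (-δ) * count A N) := by
  have hset : ∀ (A : Set ℕ) (z : ℕ → ℕ) (N : ℕ), count {a | a ∈ A ∧ ¬ Typical b l z η a} N =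
      ({x | x ∈ A ∧ ¬ Pool.Agent.V11226.ETN.Typical b l z η x ∧ x ≤ N} : Set ℕ).ncard := by
    intro A z N
    unfold count
    congr 1
    ext x
    exact ⟨fun h => ⟨h.1.1, h.1.2, h.2⟩, fun h => ⟨⟨h.1, h.2.1⟩, h.2.2⟩⟩
  have hle : ∀ (A : Set ℕ) (n : ℕ), (Pool.Agent.V11226.ET.msets A 2 n).ncard ≤ rep A n :=
    Pool.Agent.V11226.ET.msets_two_le
  constructor
  · obtain ⟨δ, C, hδ, hC, H⟩ := Pool.Agent.V11226.ETN.typical_main b l 2 hb (by omega) η hη
    refine ⟨δ, hδ, C, hC, ?_⟩
    intro z A K N hz hN hK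
    rw [hset]
    exact H z A K N hz hN (fun n hn => (hle A n).trans (hK n hn))
  · obtain ⟨δ, hδ, H⟩ := Pool.Agent.V11226.ETN.dichotomy b l 2 hb (by omega) η hη
    refine ⟨δ, hδ, ?_⟩
    intro A hA
    -- the counting function
    have hcount : ∃ c : ℝ, 0 < c ∧ ∃ N₁ : ℕ, ∀ N ≥ N₁, c * (N : ℝ) ^ (1 / (2 : ℕ) : ℝ) ≤
        ({x | x ∈ A ∧ x ≤ N} : Set ℕ).ncard := by
      have hsq : ∀ N : ℕ, (N : ℝ) ^ (1 / (2 : ℕ) : ℝ) = Real.sqrt N := by
        intro N
        rw [Real.sqrt_eq_rpow]
        norm_num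
      rcases hA with hQ | ⟨hinf, C, hC⟩
      · obtain ⟨n₀, hn₀⟩ := eventually_atTop.1 hQ
        refine ⟨1 / 2, by norm_num, 2 * n₀, fun N hN => ?_⟩
        have h3 := Pool.Agent.V11226.ET.basis_count A 2 n₀
          (fun n hn => Pool.Agent.V11226.ET.nonempty_of_rep (hn₀ n hn)) N
        set a := ({x | x ∈ A ∧ x ≤ N} : Set ℕ).ncard with ha
        have h4 : (N : ℝ) / 2 ≤ (a : ℝ) ^ 2 := by
          have h5 : (N : ℝ) + 1 ≤ n₀ + (a : ℝ) ^ 2 := by exact_mod_cast h3
          have h6 : 2 * (n₀ : ℝ) ≤ N := by exact_mod_cast hN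
          linarith
        rw [hsq]
        have h5 : (1 / 2 * Real.sqrt N) ^ 2 ≤ (a : ℝ) ^ 2 := by
          rw [mul_pow, Real.sq_sqrt (Nat.cast_nonneg N)]
          have hN0 : (0 : ℝ) ≤ N := Nat.cast_nonneg N
          linarith
        exact le_of_pow_le_pow_left₀ (n := 2) (by norm_num) (Nat.cast_nonneg _) h5
      · have hC1 : ∀ n, Nat.nth (fun a => a ∈ A) n ≤ (C + 1) * (n + 1) ^ 2 := fun n =>
          (hC n).trans (Nat.mul_le_mul_right _ (by omega))
        have hs : 0 < Real.sqrt ((C + 1 : ℕ) : ℝ) := Real.sqrt_pos.2 (by positivity)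
        refine ⟨1 / (2 * Real.sqrt ((C + 1 : ℕ) : ℝ)), by positivity, 4 * (C + 1), fun N hN => ?_⟩
        have h3 := Pool.Agent.V11226.ET.count_of_nth hinf (by omega) hC1 N hN
        rw [hsq, div_mul_eq_mul_div, one_mul, div_le_iff₀ (by positivity), mul_comm]
        exact h3
    obtain ⟨c, hc, hN₁⟩ := hcount
    rcases H A c hc hN₁ with h1 | ⟨N₀, h1⟩
    · left
      intro M
      obtain ⟨n, hn, h2⟩ := h1 M
      refine ⟨n, hn, h2.trans ?_⟩
      exact_mod_cast hle A n
    · right
      refine ⟨N₀, fun N hN z hz => ?_⟩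
      rw [hset]
      exact h1 N hN z hz

end Pool.Agent.Results.MP_12a1af_nt.DigitsOfElements
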