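import Pool.Agent.H239.MM.F

/-!
# The Erdős–Turán problem for bases with many multipliers (MP_12a1af_nt)

Let `mult B = {m | m B ⊆ B}` be the set of multipliers of `B`, let `h ≥ 2`, and let every large
integer (or every large integer which divides a positive multiplier of `B`) be a sum of `h` elements
of `B`; if `0 ∈ B` the sum shall have at least two positive terms. Let `A ⊇ B`, and let `r(n)` be the
number of representations of `n` as an ordered sum of `h` elements of `A` (for `h = 2` this is `r_A(n)`;
the proof gives the same bounds for unordered sums).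

1. If `B` has at least `N ^ δ` multipliers up to `N`, for infinitely many `N`, then
   `r(n) ≥ (log n) ^ c` for infinitely many `n`, for every `c < δ`.
2. If for every `C` there are at least `N ^ (C / log log N)` multipliers up to `N`, for infinitely many
   `N`, then `r` is unbounded.
3. If `B` is closed under multiplication, or contained in finitely many dilates `c · mult B` and `{0}`,
   then `r(n) ≥ (log n) ^ c` for infinitely many `n`, for every `c < 1 / h`.

Method. For each `d` choose a representation `d = b_1 + ⋯ + b_h`, a summand `b` with `0 < b < d`, and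
let `w(d) ≥ 2` be the denominator of `b / d`, a divisor of `d`. Let `T` be a set of multipliers which
are divisible by `D`. For `t_0, …, t_K ∈ T` the number `t_0 ⋯ t_K / D` is the product of `t_i / D` and
of a multiplier for each `i`; so it has `K + 1` representations if the ratios `b_j / d` for
`d = t_i / D` are different. Hence, if `r ≤ K` up to `N ^ (K+1)`, the number `w(t / D)` takes at most
`K` values on the multipliers `t ≤ N` divisible by `D`; these values are at least `y` if `t / D` has no
prime factor less than `y`. This tree argument gives at most `(K + 1) ^ j` multipliers `t` with the same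
`y`-smooth part `D` and `t / D < y ^ j`. Summing over the smooth parts by Rankin's method, with
`y = (log N) ^ (1 + κ)` and `K = (log N) ^ κ`, gives at most `N ^ (κ / (1 + κ) + o(1))` multipliers.
-/

set_option autoImplicit false

namespace Pool.Agent.Results.MP_12a1af_nt.ManyMultipliers

open Filter

open Classical in
/-- The number of ordered `h`-tuples of elements of `A` with sum `n`
(`Finset.Nat.antidiagonalTuple h n` is the set of all `v : Fin h → ℕ` with `∑ i, v i = n`). -/
noncomputable def reps (A : Set ℕ) (h n : ℕ) : ℕ :=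
  ((Finset.Nat.antidiagonalTuple h n).filter (fun v => ∀ i, v i ∈ A)).card

/-- The multipliers of `B`: the integers `m` with `m B ⊆ B`. -/
def mult (B : Set ℕ) : Set ℕ := {m | ∀ b ∈ B, m * b ∈ B}

/-- `n` is a sum of `h` elements of `B`, none of which is equal to `n`. (For `n > 0` this means that at
least two of the summands are positive; see the last part of the theorem.) -/
def IsSum (B : Set ℕ) (h n : ℕ) : Prop :=
  ∃ s : Multiset ℕ, Multiset.card s = h ∧ (∀ b ∈ s, b ∈ B) ∧ s.sum = n ∧ n ∉ s

/-- **The Erdős–Turán conjecture for bases with many multipliers.** -/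
theorem result :
    (∀ (A B : Set ℕ) (h n₀ : ℕ) (δ c : ℝ), B ⊆ A →
      (∀ d, n₀ ≤ d → (∃ m ∈ mult B, 0 < m ∧ d ∣ m) → IsSum B h d) →
      (∃ᶠ N : ℕ in atTop, (N : ℝ) ^ δ ≤ ((mult B ∩ Set.Icc 1 N).ncard : ℝ)) →
      0 < c → c < δ → ∃ᶠ n : ℕ in atTop, Real.log n ^ c ≤ reps A h n) ∧
    (∀ (A B : Set ℕ) (h n₀ : ℕ), B ⊆ A →
      (∀ d, n₀ ≤ d → (∃ m ∈ mult B, 0 < m ∧ d ∣ m) → IsSum B h d) →
      (∀ C : ℝ, ∃ᶠ N : ℕ in atTop, (N : ℝ) ^ (C / Real.log (Real.log N))
        ≤ ((mult B ∩ Set.Icc 1 N).ncard : ℝ)) →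
      ∀ K : ℕ, ∃ n, K < reps A h n) ∧
    (∀ (A B : Set ℕ) (h n₀ : ℕ) (c : ℝ), B ⊆ A → 1 ≤ h → (∀ d, n₀ ≤ d → IsSum B h d) →
      ((∀ a ∈ B, ∀ b ∈ B, a * b ∈ B) ∨
        (∃ C : Finset ℕ, ∀ b ∈ B, b ≠ 0 → ∃ c ∈ C, ∃ m ∈ mult B, b = c * m)) →
      0 < c → c < 1 / h → ∃ᶠ n : ℕ in atTop, Real.log n ^ c ≤ reps A h n) ∧
    (∀ (B : Set ℕ) (s : Multiset ℕ), 0 ∉ B → 2 ≤ Multiset.card s → (∀ b ∈ s, b ∈ B) →
      s.sum ∉ s) := by
  refine ⟨?_, ?_, ?_, ?_⟩
  · intro A B h n₀ δ c hBA hb hδ hc0 hc
    exact (Pool.Agent.H239.MM.growth hBA hb hδ hc0 hc).mono fun n hn =>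
      hn.trans (by exact_mod_cast Pool.Agent.H239.MM.rep_le_reps A h n)
  · intro A B h n₀ hBA hb hG
    intro K
    obtain ⟨n, hn⟩ := Pool.Agent.H239.MM.unbounded hBA hb hG K
    exact ⟨n, lt_of_lt_of_le hn (Pool.Agent.H239.MM.rep_le_reps A h n)⟩
  · intro A B h n₀ c hBA hh hb hC hc0 hc
    have key : ∃ᶠ n : ℕ in atTop, Real.log n ^ c ≤ Pool.Agent.H239.MM.rep A h n := by
      rcases hC with hC | ⟨C, hC⟩
      · refine Pool.Agent.H239.MM.growth_closed hh hBA hb {1} (fun b hb' _ => ?_) hc0 hc
        exact ⟨1, by simp, b, fun a ha => hC b hb' a ha, by simp⟩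
      · exact Pool.Agent.H239.MM.growth_closed hh hBA hb C hC hc0 hc
    exact key.mono fun n hn =>
      hn.trans (by exact_mod_cast Pool.Agent.H239.MM.rep_le_reps A h n)
  · intro B s h0 hs hB hmem
    have h1 : s.sum ::ₘ s.erase s.sum = s := Multiset.cons_erase hmem
    have h2 := congrArg Multiset.sum h1
    rw [Multiset.sum_cons] at h2
    have h3 : Multiset.card (s.erase s.sum) = Multiset.card s - 1 :=
      Multiset.card_erase_of_mem hmem
    obtain ⟨b, hb⟩ := Multiset.card_pos_iff_exists_mem.1
      (by omega : 0 < Multiset.card (s.erase s.sum))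
    have hb0 : b ≠ 0 := fun h => h0 (h ▸ hB b (Multiset.mem_of_mem_erase hb))
    have hle : b ≤ (s.erase s.sum).sum := Multiset.single_le_sum (fun x _ => Nat.zero_le x) b hb
    omega

end Pool.Agent.Results.MP_12a1af_nt.ManyMultipliers
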