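import Pool.Agent.V11226.ET.Parity

/-!
# MP_12a1af_nt, Q1 and Q2: the parity of the representation function and automatic sequences

`rep A n` is the number `r_A(n)` of ordered pairs of elements of `A` with sum `n`.

Let `A` satisfy the hypothesis of Q1 or that of Q2, and let `P` be an automatic set (recognised by a
finite automaton from the digits in some base `b`). If, for arbitrarily large `N`, the parity of
`r_A(2 m)` is predicted by `P` for all `m ≤ N` with at most `(1 - κ) |A ∩ [0, N]|` exceptions, for some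
fixed `κ > 0`, then `r_A` is unbounded, and even `r_A(n) ≥ n ^ δ` for infinitely many `n`. So for a
counterexample `A` to one of the two conjectures every automatic prediction of the parity of `r_A` at
the even numbers `2 m`, `m ≤ N`, has at least `(1 - o(1)) |A ∩ [0, N]|` errors, and no automatic
sequence does better than the constant prediction (always even). In particular the representation function of
a set that satisfies the hypothesis of Q1 or of Q2 is never an automatic sequence, not even up to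
finitely many terms.

Method. `r_A(2 m)` is odd if and only if `m ∈ A`. So a prediction with few errors gives an automatic
set `S = {m | 2 m ∈ P}` which contains a fixed proportion of the elements of `A` and has at most
`2 |A ∩ [0, N]|` elements up to `N`. Now the power saving for sets with bounded representation function
in automatic sets is applied (`Pool.Agent.V11226.ET.Main`, see the result `AutomaticHosts`).
-/

set_option autoImplicit false

open Filter

namespace Pool.Agent.Results.MP_12a1af_nt.ParityOfRepresentations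

/-- `r_A(n)`: the number of ordered pairs of elements of `A` with sum `n`. -/
noncomputable def rep (A : Set ℕ) (n : ℕ) : ℕ :=
  {p : ℕ × ℕ | p.1 ∈ A ∧ p.2 ∈ A ∧ p.1 + p.2 = n}.ncard

/-- `count S N`: the number of elements of `S` up to `N`. -/
noncomputable def count (S : Set ℕ) (N : ℕ) : ℕ := {x : ℕ | x ∈ S ∧ x ≤ N}.ncard

/-- The hypothesis of Q1 or that of Q2; `Nat.nth (fun a => a ∈ A) n` is the element `a_{n+1}` of
`A`. -/
def Hypothesis (A : Set ℕ) : Prop :=
  (∀ᶠ n in atTop, 1 ≤ rep A n) ∨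
    (A.Infinite ∧ ∃ C : ℕ, ∀ n, Nat.nth (fun a => a ∈ A) n ≤ C * (n + 1) ^ 2)

/-- `P` is recognised by a deterministic automaton with `w` states which reads the digits in base `b`,
the least significant digit first. -/
def Automatic (b w : ℕ) (P : Set ℕ) : Prop :=
  ∃ (δ : Fin w → ℕ → Fin w) (q₀ : Fin w) (F : Set (Fin w)),
    ∀ x, x ∈ P ↔ (Nat.digits b x).foldl δ q₀ ∈ F

/-- The sequence `ρ` is the output of such an automaton. -/
def AutomaticSequence (b w : ℕ) (ρ : ℕ → ℕ) : Prop :=
  ∃ (δ : Fin w → ℕ → Fin w) (q₀ : Fin w) (out : Fin w → ℕ),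
    ∀ x, ρ x = out ((Nat.digits b x).foldl δ q₀)

/-- The number of `m ≤ N` for which the prediction `P` of the parity of `r_A(2 m)` is wrong. -/
noncomputable def errors (A P : Set ℕ) (N : ℕ) : ℕ :=
  {m : ℕ | m ≤ N ∧ ¬ (Odd (rep A (2 * m)) ↔ 2 * m ∈ P)}.ncard

/-- (1) If an automatic set predicts the parity of `r_A(2 m)` with at most `(1 - κ) |A ∩ [0, N]|`
errors up to `N`, for arbitrarily large `N`, then `r_A(n) ≥ n ^ δ` for infinitely many `n`.
(2) The representation function is not an automatic sequence. -/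
theorem result (b w : ℕ) (hb : 2 ≤ b) :
    (∃ δ : ℝ, 0 < δ ∧ ∀ (A P : Set ℕ) (κ : ℝ), Hypothesis A → Automatic b w P → 0 < κ →
      (∀ M : ℕ, ∃ N ≥ M, (errors A P N : ℝ) ≤ (1 - κ) * count A N) →
      ∀ M : ℕ, ∃ n ≥ M, (n : ℝ) ^ δ ≤ rep A n) ∧
    (∀ A : Set ℕ, Hypothesis A →
      ¬ ∃ ρ : ℕ → ℕ, AutomaticSequence b w ρ ∧ ∀ᶠ n in atTop, rep A n = ρ n) := by
  have main : ∃ δ : ℝ, 0 < δ ∧ ∀ (A P : Set ℕ) (κ : ℝ), Hypothesis A → Automatic b w P → 0 < κ →
      (∀ M : ℕ, ∃ N ≥ M, (errors A P N : ℝ) ≤ (1 - κ) * count A N) →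
      ∀ M : ℕ, ∃ n ≥ M, (n : ℝ) ^ δ ≤ rep A n := by
    obtain ⟨δ, hδ, H⟩ := Pool.Agent.V11226.ET.parity_power b w hb
    exact ⟨δ, hδ, fun A P κ hA hP hκ h => H A P κ hP hκ hA h⟩
  refine ⟨main, ?_⟩
  rintro A hA ⟨ρ, ⟨d, q₀, out, hρ⟩, hev⟩
  obtain ⟨δ, hδ, H⟩ := main
  obtain ⟨n₀, hn₀⟩ := eventually_atTop.1 hev
  -- the set `A` is infinite
  have hfinN : ∀ N, ({x : ℕ | x ∈ A ∧ x ≤ N} : Set ℕ).Finite := fun N =>
    (Set.finite_Iic N).subset fun x hx => hx.2
  have hinf : ∀ B : ℕ, ∃ N₁, ∀ N ≥ N₁, B ≤ count A N := by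
    intro B
    rcases hA with hQ | ⟨hAinf, -⟩
    · obtain ⟨n₁, hn₁⟩ := eventually_atTop.1 hQ
      refine ⟨n₁ + B ^ 2, fun N hN => ?_⟩
      have h1 := Pool.Agent.V11226.ET.basis_count A 2 n₁
        (fun n hn => Pool.Agent.V11226.ET.nonempty_of_rep (hn₁ n hn)) N
      have h2 : B ^ 2 < count A N ^ 2 + 1 := by
        unfold count
        omega
      exact (Nat.pow_le_pow_iff_left two_ne_zero).1 (by omega)
    · obtain ⟨T, hT1, hT2⟩ := hAinf.exists_subset_card_eq B
      refine ⟨T.sup id, fun N hN => ?_⟩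
      unfold count
      rw [← hT2, ← Set.ncard_coe_finset]
      refine Set.ncard_le_ncard ?_ (hfinN N)
      intro x hx
      exact ⟨hT1 hx, (Finset.le_sup (f := id) hx).trans hN⟩
  obtain ⟨N₁, hN₁⟩ := hinf (2 * (n₀ + 1))
  have hpow := H A {x | Odd (ρ x)} (1 / 2) hA
    ⟨d, q₀, {q | Odd (out q)}, fun x => by
      show Odd (ρ x) ↔ Odd (out _)
      rw [hρ]⟩ (by norm_num) (by
      intro M
      refine ⟨max M N₁, le_max_left _ _, ?_⟩
      have h1 : errors A {x | Odd (ρ x)} (max M N₁) ≤ n₀ + 1 := by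
        unfold errors
        refine (Set.ncard_le_ncard (t := ((Finset.range (n₀ + 1) : Finset ℕ) : Set ℕ)) ?_
          (Finset.finite_toSet _)).trans (by rw [Set.ncard_coe_finset, Finset.card_range])
        rintro m ⟨-, hm⟩
        rw [Finset.mem_coe, Finset.mem_range]
        by_contra h2
        refine hm ?_
        rw [hn₀ (2 * m) (by omega)]
        exact Iff.rfl
      have h2 := hN₁ (max M N₁) (le_max_right _ _)
      have h3 : (errors A {x | Odd (ρ x)} (max M N₁) : ℝ) ≤ n₀ + 1 := by exact_mod_cast h1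
      have h4 : (2 : ℝ) * (n₀ + 1) ≤ count A (max M N₁) := by exact_mod_cast h2
      linarith)
  -- but an automatic sequence is bounded
  set B : ℕ := ∑ q, out q with hB
  have hbound : ∀ n ≥ n₀, rep A n ≤ B := by
    intro n hn
    rw [hn₀ n hn, hρ, hB]
    exact Finset.single_le_sum (f := out) (fun _ _ => Nat.zero_le _) (Finset.mem_univ _)
  have hlarge : ∀ᶠ N : ℕ in atTop, (B : ℝ) + 1 ≤ (N : ℝ) ^ δ :=
    ((tendsto_rpow_atTop hδ).comp tendsto_natCast_atTop_atTop).eventually_ge_atTop _
  obtain ⟨M₁, hM₁⟩ := eventually_atTop.1 hlarge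
  obtain ⟨n, hn, h1⟩ := hpow (max M₁ n₀)
  have h2 := hM₁ n (le_trans (le_max_left _ _) hn)
  have h3 := hbound n (le_trans (le_max_right _ _) hn)
  have h4 : (rep A n : ℝ) ≤ B := by exact_mod_cast h3
  linarith

end Pool.Agent.Results.MP_12a1af_nt.ParityOfRepresentations
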